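import Pool.Agent.W993.MC.Stm

set_option autoImplicit false

namespace Pool.Agent.W82.MC

open Filter Topology Pool.Agent.W993.MC

lemma abs_sin_le (n : ℕ) : |Real.sin (Real.pi * n / 3)| ≤ √3 / 2 := by
  set x := Real.pi * n / 3 with hx
  have h1 : Real.sin (3 * x) = 0 := by
    have h2 : 3 * x = n * Real.pi := by rw [hx]; ring
    rw [h2]
    exact Real.sin_nat_mul_pi n
  rw [Real.sin_three_mul] at h1
  have h2 : Real.sin x * (3 - 4 * Real.sin x ^ 2) = 0 := by linear_combination h1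
  have h3 : Real.sin x ^ 2 ≤ (√3 / 2) ^ 2 := by
    have h4 : (√3 : ℝ) ^ 2 = 3 := Real.sq_sqrt (by norm_num)
    rcases mul_eq_zero.mp h2 with h | h
    · rw [h]
      nlinarith
    · nlinarith
  exact abs_le_of_sq_le_sq h3 (by positivity)

lemma hasSum_tail : HasSum (fun l : ℕ => 1 / ((l : ℝ) + 2) ^ 2) (Real.pi ^ 2 / 6 - 1) := by
  have h := (hasSum_nat_add_iff' 2).mpr hasSum_zeta_two
  have h2 : (∑ i ∈ Finset.range 2, 1 / ((i : ℕ) : ℝ) ^ 2) = 1 := by
    simp [Finset.sum_range_succ]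
  rw [h2] at h
  refine h.congr_fun ?_
  intro l
  push_cast
  rfl

lemma pi_sq_lt : Real.pi ^ 2 < 12 := by
  have h1 := Real.pi_lt_d2
  have h2 := Real.pi_pos
  nlinarith

lemma omega_pow (l : ℕ) : omega ^ (l + 1) =
    Complex.exp (((Real.pi * ((l + 1 : ℕ) : ℝ) / 3 : ℝ) : ℂ) * Complex.I) := by
  unfold omega
  rw [← Complex.exp_nat_mul]
  congr 1
  push_cast
  ring

theorem cl : S_CL := by
  intro w v hw hv
  have hS : S [(w, omega)] = fun M => ∑ l ∈ Finset.range M, omega ^ (l + 1) / ((l : ℂ) + 1) ^ w := by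
    funext M
    simp [S]
  rw [hS] at hv
  set f : ℕ → ℂ := fun l => omega ^ (l + 1) / ((l : ℂ) + 1) ^ w with hf
  have hfre : ∀ l, (f l).re = Real.cos (Real.pi * ((l + 1 : ℕ) : ℝ) / 3) / ((l : ℝ) + 1) ^ w := by
    intro l
    have h1 : f l = omega ^ (l + 1) / ((((l : ℝ) + 1) ^ w : ℝ) : ℂ) := by
      rw [hf]
      push_cast
      rfl
    rw [h1, Complex.div_ofReal_re, omega_pow, Complex.exp_ofReal_mul_I_re]
  have hfim : ∀ l, (f l).im = Real.sin (Real.pi * ((l + 1 : ℕ) : ℝ) / 3) / ((l : ℝ) + 1) ^ w := by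
    intro l
    have h1 : f l = omega ^ (l + 1) / ((((l : ℝ) + 1) ^ w : ℝ) : ℂ) := by
      rw [hf]
      push_cast
      rfl
    rw [h1, Complex.div_ofReal_im, omega_pow, Complex.exp_ofReal_mul_I_im]
  have hom : ∀ l, ‖omega ^ (l + 1)‖ = 1 := by
    intro l
    rw [omega_pow, Complex.norm_exp_ofReal_mul_I]
  have hsum : Summable f := by
    have h0 : Summable (fun l : ℕ => 1 / ((l : ℝ) + 1) ^ 2) := by
      have h1 := (summable_nat_add_iff 1).mpr (hasSum_zeta_two.summable)
      refine h1.congr ?_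
      intro l
      push_cast
      rfl
    refine Summable.of_norm_bounded h0 (fun l => ?_)
    have hl : (1 : ℝ) ≤ (l : ℝ) + 1 := by
      have : (0 : ℝ) ≤ l := Nat.cast_nonneg l
      linarith
    have h2 : ‖(l : ℂ) + 1‖ = (l : ℝ) + 1 := by
      have h3 : (l : ℂ) + 1 = (((l : ℝ) + 1 : ℝ) : ℂ) := by push_cast; rfl
      rw [h3, Complex.norm_real, Real.norm_eq_abs, abs_of_nonneg (by linarith)]
    rw [hf]
    simp only [norm_div, norm_pow, h2]
    rw [← norm_pow, hom]
    exact one_div_le_one_div_of_le (by positivity) (pow_le_pow_right₀ hl hw)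
  have hHS : HasSum f v := by
    have h1 := hsum.hasSum.tendsto_sum_nat
    have h2 := tendsto_nhds_unique h1 hv
    rw [← h2]
    exact hsum.hasSum
  rw [Complex.hasSum_iff] at hHS
  obtain ⟨hre, him⟩ := hHS
  refine ⟨?_, ?_⟩
  · rcases Nat.lt_or_ge 2 w with hw3 | hw2
    · -- `w ≥ 3`
      have h1 := (hasSum_nat_add_iff' 1).mpr hre
      have h0 : (∑ i ∈ Finset.range 1, (f i).re) = 1 / 2 := by
        rw [Finset.sum_range_one, hfre]
        simp
      rw [h0] at h1
      have h2 : HasSum (fun l : ℕ => -(1 / 2 * (1 / ((l : ℝ) + 2) ^ 2)))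
          (-(1 / 2 * (Real.pi ^ 2 / 6 - 1))) := (hasSum_tail.mul_left (1 / 2)).neg
      have h3 := hasSum_le (fun l => ?_) h2 h1
      · have h4 := pi_sq_lt
        intro h5
        rw [h5] at h3
        linarith
      · have hl : (0 : ℝ) ≤ l := Nat.cast_nonneg l
        rw [hfre]
        have h5 : |Real.cos (Real.pi * (((l + 1) + 1 : ℕ) : ℝ) / 3) / (((l + 1 : ℕ) : ℝ) + 1) ^ w| ≤
            1 / 2 * (1 / ((l : ℝ) + 2) ^ 2) := by
          have h6 : (((l + 1 : ℕ) : ℝ) + 1) = (l : ℝ) + 2 := by push_cast; ring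
          rw [h6, abs_div, abs_of_pos (show (0 : ℝ) < ((l : ℝ) + 2) ^ w by positivity)]
          calc |Real.cos (Real.pi * (((l + 1) + 1 : ℕ) : ℝ) / 3)| / ((l : ℝ) + 2) ^ w
              ≤ 1 / ((l : ℝ) + 2) ^ w :=
                div_le_div_of_nonneg_right (Real.abs_cos_le_one _) (by positivity)
            _ ≤ 1 / ((l : ℝ) + 2) ^ 3 :=
                one_div_le_one_div_of_le (by positivity)
                  (pow_le_pow_right₀ (by linarith) hw3)
            _ = 1 / (l + 2) * (1 / ((l : ℝ) + 2) ^ 2) := by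
                field_simp
            _ ≤ 1 / 2 * (1 / ((l : ℝ) + 2) ^ 2) := by
                apply mul_le_mul_of_nonneg_right _ (by positivity)
                exact one_div_le_one_div_of_le (by norm_num) (by linarith)
        exact (abs_le.mp h5).1
    · -- `w = 2`
      have hw' : w = 2 := le_antisymm hw2 hw
      have h1 := hasSum_one_div_nat_pow_mul_cos (k := 1) one_ne_zero (x := 1 / 6)
        ⟨by norm_num, by norm_num⟩
      have h2 := (hasSum_nat_add_iff' 1).mpr h1
      have h3 : HasSum (fun l => (f l).re) ((-1 : ℝ) ^ (1 + 1) * (2 * Real.pi) ^ (2 * 1) / 2 /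
          ((2 * 1).factorial : ℝ) * (Polynomial.map (algebraMap ℚ ℝ)
            (Polynomial.bernoulli (2 * 1))).eval (1 / 6)) := by
        have h4 : (∑ i ∈ Finset.range 1, 1 / ((i : ℕ) : ℝ) ^ (2 * 1) *
            Real.cos (2 * Real.pi * i * (1 / 6))) = 0 := by
          simp
        rw [h4, sub_zero] at h2
        refine h2.congr_fun ?_
        intro l
        rw [hfre, hw']
        push_cast
        rw [show 2 * Real.pi * ((l : ℝ) + 1) * (1 / 6) = Real.pi * (l + 1) / 3 by ring]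
        ring
      have h5 := hre.unique h3
      rw [h5]
      have h6 : (Polynomial.map (algebraMap ℚ ℝ)
            (Polynomial.bernoulli (2 * 1))).eval (1 / 6 : ℝ) = 1 / 36 := by
        rw [Polynomial.bernoulli_def]
        simp [Finset.sum_range_succ, Polynomial.eval_add]
        norm_num
      rw [h6]
      have := Real.pi_pos
      positivity
  · have h1 := (hasSum_nat_add_iff' 1).mpr him
    have h0 : (∑ i ∈ Finset.range 1, (f i).im) = √3 / 2 := by
      rw [Finset.sum_range_one, hfim]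
      simp
    rw [h0] at h1
    have h2 : HasSum (fun l : ℕ => -(√3 / 2 * (1 / ((l : ℝ) + 2) ^ 2)))
        (-(√3 / 2 * (Real.pi ^ 2 / 6 - 1))) := (hasSum_tail.mul_left (√3 / 2)).neg
    have h3 := hasSum_le (fun l => ?_) h2 h1
    · have h4 := pi_sq_lt
      have h6 : (0 : ℝ) < √3 := Real.sqrt_pos.mpr (by norm_num)
      intro h5
      rw [h5] at h3
      nlinarith
    · have hl : (0 : ℝ) ≤ l := Nat.cast_nonneg l
      rw [hfim]
      have h5 : |Real.sin (Real.pi * (((l + 1) + 1 : ℕ) : ℝ) / 3) / (((l + 1 : ℕ) : ℝ) + 1) ^ w| ≤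
          √3 / 2 * (1 / ((l : ℝ) + 2) ^ 2) := by
        have h6 : (((l + 1 : ℕ) : ℝ) + 1) = (l : ℝ) + 2 := by push_cast; ring
        rw [h6, abs_div, abs_of_pos (show (0 : ℝ) < ((l : ℝ) + 2) ^ w by positivity)]
        calc |Real.sin (Real.pi * (((l + 1) + 1 : ℕ) : ℝ) / 3)| / ((l : ℝ) + 2) ^ w
            ≤ (√3 / 2) / ((l : ℝ) + 2) ^ w :=
              div_le_div_of_nonneg_right (abs_sin_le _) (by positivity)
          _ ≤ (√3 / 2) / ((l : ℝ) + 2) ^ 2 :=
              div_le_div_of_nonneg_left (by positivity) (by positivity)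
                (pow_le_pow_right₀ (by linarith) hw)
          _ = √3 / 2 * (1 / ((l : ℝ) + 2) ^ 2) := by ring
      exact (abs_le.mp h5).1

end Pool.Agent.W82.MC
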